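import Pool.Agent.Helper39.SQ.Goals

/-!
# Packet SQ-FIN for MP_9b2a83_an
-/

namespace Pool.Agent.Helper98.SQ.FIN

open Pool.Agent.Helper39.SQ Pool.Agent.Helper39.Net

theorem log2_lb : (0.6931 : ℝ) < Real.log 2 := by
  have := Real.log_two_gt_d9
  linarith

theorem log2_ub : Real.log 2 < 0.6932 := by
  have := Real.log_two_lt_d9
  linarith

/-- The purely numerical part. -/
theorem core (k : ℕ) (t g : ℝ) (ht : 0 < t) (hg : g = 1 + Real.log (1 + t)) (C : ℝ)
    (h1 : 1 ≤ 10000 * C)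
    (hlow : ∀ D : ℕ, 2 ≤ D → 4 * ((2 : ℝ) ^ D) ^ 2 ≤ t →
      (D : ℝ) ^ k ≤ (10 ^ 5 : ℝ) ^ (k + 2) * (Nat.log 2 (D + 1) : ℝ) ^ k * C) :
    (g / Real.log (Real.exp 1 + g)) ^ k ≤ (10 ^ 6 : ℝ) ^ (k + 2) * C := by
  have hl : 0 ≤ Real.log (1 + t) := Real.log_nonneg (by linarith)
  have hg1 : 1 ≤ g := by linarith
  have hM1 : 1 ≤ Real.log (Real.exp 1 + g) := by
    have := Real.log_le_log (Real.exp_pos 1) (by linarith : Real.exp 1 ≤ Real.exp 1 + g)
    rwa [Real.log_exp] at this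
  obtain ⟨M, hM⟩ : ∃ M, M = Real.log (Real.exp 1 + g) := ⟨_, rfl⟩
  rw [← hM] at hM1 ⊢
  have hM0 : 0 < M := by linarith
  have hC0 : 0 ≤ C := by linarith
  have hr0 : 0 ≤ g / M := by positivity
  have a1 := log2_lb
  have a2 := log2_ub
  by_cases hH : (64 : ℝ) ≤ t
  · -- the largest good parameter
    obtain ⟨D, hD2, hD, hD'⟩ : ∃ D : ℕ, 2 ≤ D ∧ 4 * ((2 : ℝ) ^ D) ^ 2 ≤ t ∧
        t < 4 * ((2 : ℝ) ^ (D + 1)) ^ 2 := by
      have hex : ∃ m : ℕ, t < 4 * ((2 : ℝ) ^ (m + 1)) ^ 2 := by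
        obtain ⟨m, hm⟩ := exists_nat_gt t
        refine ⟨m, hm.trans_le ?_⟩
        have h2 : (m : ℝ) < 2 ^ m := by exact_mod_cast Nat.lt_two_pow_self
        have h3 : (1 : ℝ) ≤ 2 ^ m := one_le_pow₀ (by norm_num)
        rw [pow_succ (2 : ℝ) m]
        nlinarith
      classical
      have hs := Nat.find_spec hex
      have hm := fun j => @Nat.find_min _ _ hex j
      set m := Nat.find hex with hm0
      have hm2 : 2 ≤ m := by
        by_contra hcon
        push Not at hcon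
        have : ((2 : ℝ) ^ (m + 1)) ≤ 2 ^ 2 := pow_le_pow_right₀ (by norm_num) (by omega)
        have h4 : ((2 : ℝ) ^ (m + 1)) ^ 2 ≤ (2 ^ 2) ^ 2 := by gcongr
        norm_num at h4
        linarith
      refine ⟨m, hm2, ?_, hs⟩
      have := hm (m - 1) (by omega)
      push Not at this
      have e : m - 1 + 1 = m := by omega
      rw [e] at this
      exact this
    have hE := hlow D hD2 hD
    obtain ⟨l, hl0⟩ : ∃ l, l = Nat.log 2 (D + 1) := ⟨_, rfl⟩
    rw [← hl0] at hE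
    have hl1 : 1 ≤ l := by
      rw [hl0]
      exact Nat.log_pos (by norm_num) (by omega)
    have hl2 : 2 ^ l ≤ D + 1 := by
      rw [hl0]
      exact Nat.pow_log_le_self 2 (by omega)
    have hlr : (1 : ℝ) ≤ l := by exact_mod_cast hl1
    have hDr : (2 : ℝ) ≤ D := by exact_mod_cast hD2
    -- upper bound for g
    have hu : g ≤ 4 * D := by
      have h3 : 1 + t ≤ 2 * (2 ^ (2 * D + 4) : ℝ) := by
        have e : (4 : ℝ) * ((2 : ℝ) ^ (D + 1)) ^ 2 = 2 ^ (2 * D + 4) := by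
          rw [← pow_mul]
          have : (D + 1) * 2 = 2 * D + 2 := by ring
          rw [this, show 2 * D + 4 = (2 * D + 2) + 2 from rfl, pow_add 2 (2 * D + 2) 2]
          ring
        rw [e] at hD'
        linarith
      have h4 : Real.log (1 + t) ≤ Real.log (2 * (2 ^ (2 * D + 4) : ℝ)) :=
        Real.log_le_log (by linarith) h3
      rw [Real.log_mul (by norm_num) (by positivity), Real.log_pow] at h4
      push_cast at h4
      nlinarith
    -- lower bound for g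
    have hlo : (D : ℝ) + 1 ≤ g := by
      have h3 : (2 ^ (2 * D + 2) : ℝ) ≤ 1 + t := by
        have e : (4 : ℝ) * ((2 : ℝ) ^ D) ^ 2 = 2 ^ (2 * D + 2) := by
          rw [← pow_mul]
          have : D * 2 = 2 * D := by ring
          rw [this, pow_add 2 (2 * D) 2]
          ring
        rw [e] at hD
        linarith
      have h4 : Real.log (2 ^ (2 * D + 2) : ℝ) ≤ Real.log (1 + t) :=
        Real.log_le_log (by positivity) h3
      rw [Real.log_pow] at h4
      push_cast at h4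
      nlinarith
    have hMl : (l : ℝ) * 0.6931 ≤ M := by
      have h5 : (2 ^ l : ℝ) ≤ (D : ℝ) + 1 := by exact_mod_cast hl2
      have h6 : Real.log (2 ^ l : ℝ) ≤ M := by
        rw [hM]
        apply Real.log_le_log (by positivity)
        have := Real.exp_pos 1
        linarith
      rw [Real.log_pow] at h6
      nlinarith
    have hratio : g / M ≤ 6 * (D / l) := by
      rw [div_le_iff₀ hM0]
      have h7 : 6 * ((D : ℝ) / l) * (l * 0.6931) ≤ 6 * ((D : ℝ) / l) * M := by gcongr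
      have h8 : 6 * ((D : ℝ) / l) * (l * 0.6931) = 6 * 0.6931 * D := by
        field_simp
      rw [h8] at h7
      nlinarith
    have hDl : ((D : ℝ) / l) ^ k ≤ (10 ^ 5 : ℝ) ^ (k + 2) * C := by
      rw [div_pow, div_le_iff₀ (by positivity)]
      calc (D : ℝ) ^ k ≤ (10 ^ 5 : ℝ) ^ (k + 2) * (l : ℝ) ^ k * C := hE
        _ = _ := by ring
    calc (g / M) ^ k ≤ (6 * ((D : ℝ) / l)) ^ k := by gcongr
      _ = 6 ^ k * ((D : ℝ) / l) ^ k := by rw [mul_pow]
      _ ≤ 6 ^ k * ((10 ^ 5 : ℝ) ^ (k + 2) * C) := by gcongr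
      _ ≤ 10 ^ (k + 2) * ((10 ^ 5 : ℝ) ^ (k + 2) * C) := by
          apply mul_le_mul_of_nonneg_right _ (by positivity)
          calc (6 : ℝ) ^ k ≤ 10 ^ k := by gcongr; norm_num
            _ ≤ 10 ^ (k + 2) := pow_le_pow_right₀ (by norm_num) (by omega)
      _ = (10 ^ 6 : ℝ) ^ (k + 2) * C := by
          rw [← mul_assoc, ← mul_pow]
          norm_num
  · push Not at hH
    have hg6 : g ≤ 6 := by
      have h3 : Real.log (1 + t) ≤ Real.log (2 ^ 7) :=
        Real.log_le_log (by linarith) (by norm_num; linarith)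
      rw [Real.log_pow] at h3
      push_cast at h3
      linarith
    have hr : g / M ≤ 6 := by
      rw [div_le_iff₀ hM0]
      nlinarith
    calc (g / M) ^ k ≤ 6 ^ k := by gcongr
      _ ≤ (10 ^ 6 : ℝ) ^ k * 1 := by
          rw [mul_one]
          gcongr
          norm_num
      _ ≤ (10 ^ 6 : ℝ) ^ k * (10000 * C) := by gcongr
      _ ≤ (10 ^ 6 : ℝ) ^ k * ((10 ^ 6) ^ 2 * C) := by
          gcongr
          norm_num
      _ = _ := by rw [pow_add]; ring

theorem thm : G_LOW → G_FIN := by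
  intro hL
  refine ⟨10 ^ 6, by norm_num, fun k c hc => ?_⟩
  have hc0 : 0 < c - 1 := by linarith
  have ht : 0 < 1 / (c - 1) := by positivity
  have toCN : ∀ {E : Type} {ρ : E → E → ℝ}, BddAbove (Ratios ρ c) → ∀ (n D : ℕ), 2 ≤ n → ∀ Q : ℝ,
      0 ≤ Q → (n : ℝ) * (D : ℝ) ^ k ≤ Q * EN ρ n c → (D : ℝ) ^ k ≤ Q * CN ρ c := by
    intro E ρ hb n D hn Q hQ h
    have h1 : (EN ρ n c : ℝ) / (n : ℝ) ≤ CN ρ c := le_csSup hb ⟨n, hn, rfl⟩
    have h0 : (0 : ℝ) < (n : ℝ) := by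
      have : 0 < n := by omega
      exact_mod_cast this
    rw [div_le_iff₀ h0] at h1
    have h3 : (n : ℝ) * (D : ℝ) ^ k ≤ (n : ℝ) * (Q * CN ρ c) := by
      calc _ ≤ Q * EN ρ n c := h
        _ ≤ Q * (CN ρ c * (n : ℝ)) := by gcongr
        _ = _ := by ring
    exact le_of_mul_le_mul_left h3 h0
  have key : ∀ D : ℕ, 2 ≤ D → 4 * ((2 : ℝ) ^ D) ^ 2 ≤ 1 / (c - 1) →
      (D : ℝ) ^ k ≤ (10 ^ 5 : ℝ) ^ (k + 2) * (Nat.log 2 (D + 1) : ℝ) ^ k *
        CN (dOne (d := k + 2)) c ∧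
      (D : ℝ) ^ k ≤ (10 ^ 5 : ℝ) ^ (k + 2) * (Nat.log 2 (D + 1) : ℝ) ^ k *
        CN (dInf (d := k + 2)) c := by
    intro D hD hlt
    rw [le_div_iff₀ hc0] at hlt
    obtain ⟨n, hn, hh⟩ := hL k D hD
    obtain ⟨e1, e2⟩ := hh c hc.le (by linarith)
    exact ⟨toCN (bdd_one (k + 1) c hc) n D hn _ (by positivity) e1,
      toCN (bdd_inf (k + 1) c hc) n D hn _ (by positivity) e2⟩
  refine ⟨?_, ?_⟩
  · exact core k (1 / (c - 1)) (G c) ht rfl _
      (half_le (bdd_one (k + 1) c hc) (two_one (k + 1) c hc.le)) fun D h1 h2 => (key D h1 h2).1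
  · exact core k (1 / (c - 1)) (G c) ht rfl _
      (half_le (bdd_inf (k + 1) c hc) (two_inf (k + 1) c hc.le)) fun D h1 h2 => (key D h1 h2).2

end Pool.Agent.Helper98.SQ.FIN
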