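import Pool.Agent.Helper39.SQ.Goals

/-!
# Packet SQ-HUBZ for MP_9b2a83_an
-/

namespace Pool.Agent.Helper98.SQ.HUBZ

open Pool.Agent.Helper39.SQ

theorem card_FF (r : ℕ) (α β : ℤ) : (FF r α β).card ≤ 2 * r + 129 := by
  unfold FF
  refine (Finset.card_union_le _ _).trans ?_
  have h1 : (((Finset.range r).image fun i => -((-α) / 2 ^ i) * 2 ^ i) ∪
    ((Finset.range r).image fun i => β / 2 ^ i * 2 ^ i)).card ≤ 2 * r := by
    refine (Finset.card_union_le _ _).trans ?_
    have h2 : ((Finset.range r).image fun i => -((-α) / 2 ^ i) * 2 ^ i).card ≤ r := by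
      refine Finset.card_image_le.trans ?_
      simp
    have h3 : ((Finset.range r).image fun i => β / 2 ^ i * 2 ^ i).card ≤ r := by
      refine Finset.card_image_le.trans ?_
      simp
    omega
  have h4 : ((Finset.Icc (α / 2 ^ r) (α / 2 ^ r + 128)).image fun m => m * 2 ^ r).card ≤ 129 := by
    refine Finset.card_image_le.trans ?_
    rw [Int.card_Icc]
    omega
  omega

/-- The hubs with a prescribed value `m * 2 ^ r` at the coordinate `j`. -/
noncomputable def Hm (k r : ℕ) (x : Fin (k + 1) → ℤ) (j : Fin (k + 1)) (m : ℤ) :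
    Finset (Fin (k + 1) → ℤ) :=
  Fintype.piFinset fun i => if i = j then {m * 2 ^ r} else
    FF r (x i - |m * 2 ^ r - x j|) (x i + |m * 2 ^ r - x j|)

/-- The hubs. -/
noncomputable def Hz (k r : ℕ) (x : Fin (k + 1) → ℤ) : Finset (Fin (k + 1) → ℤ) :=
  Finset.univ.biUnion fun j => (Finset.Icc (x j / 2 ^ r - 64) (x j / 2 ^ r + 64)).biUnion fun m =>
    Hm k r x j m

theorem card_Hm (k r : ℕ) (x : Fin (k + 1) → ℤ) (j : Fin (k + 1)) (m : ℤ) :
    (Hm k r x j m).card ≤ (2 * r + 129) ^ k := by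
  unfold Hm
  rw [Fintype.card_piFinset, ← Finset.mul_prod_erase _ _ (Finset.mem_univ j)]
  simp only [if_true, Finset.card_singleton, one_mul]
  refine (Finset.prod_le_pow_card _ _ (2 * r + 129) ?_).trans ?_
  · intro i hi
    rw [if_neg (Finset.ne_of_mem_erase hi)]
    exact card_FF _ _ _
  · rw [Finset.card_erase_of_mem (Finset.mem_univ j)]
    simp

theorem card_Hz (k r : ℕ) (x : Fin (k + 1) → ℤ) :
    (Hz k r x).card ≤ (k + 1) * 129 * (2 * r + 129) ^ k := by
  unfold Hz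
  refine Finset.card_biUnion_le.trans ?_
  have : ∀ j ∈ (Finset.univ : Finset (Fin (k + 1))),
      ((Finset.Icc (x j / 2 ^ r - 64) (x j / 2 ^ r + 64)).biUnion fun m => Hm k r x j m).card ≤
        129 * (2 * r + 129) ^ k := by
    intro j _
    refine Finset.card_biUnion_le.trans ?_
    refine (Finset.sum_le_card_nsmul _ _ ((2 * r + 129) ^ k) fun m _ => card_Hm k r x j m).trans ?_
    rw [Int.card_Icc, smul_eq_mul]
    apply Nat.mul_le_mul_right
    omega
  refine (Finset.sum_le_card_nsmul _ _ _ this).trans ?_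
  simp [mul_assoc]

theorem mem_Hz {k r : ℕ} {x v : Fin (k + 1) → ℤ} (j : Fin (k + 1)) (m : ℤ) (hj : v j = m * 2 ^ r)
    (hm : |m * 2 ^ r - x j| ≤ 64 * 2 ^ r)
    (hv : ∀ i, i ≠ j → v i ∈ FF r (x i - |m * 2 ^ r - x j|) (x i + |m * 2 ^ r - x j|)) :
    v ∈ Hz k r x := by
  unfold Hz
  rw [Finset.mem_biUnion]
  refine ⟨j, Finset.mem_univ j, ?_⟩
  rw [Finset.mem_biUnion]
  refine ⟨m, ?_, ?_⟩
  · rw [abs_le] at hm
    have hp : (0 : ℤ) < 2 ^ r := by positivity
    rw [Finset.mem_Icc]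
    constructor
    · have h1 : x j / 2 ^ r ≤ m + 64 := by
        have h2 : x j ≤ (m + 64) * 2 ^ r := by linarith [hm.1]
        calc x j / 2 ^ r ≤ ((m + 64) * 2 ^ r) / 2 ^ r := Int.ediv_le_ediv hp h2
          _ = m + 64 := Int.mul_ediv_cancel _ hp.ne'
      linarith
    · have h1 : m - 64 ≤ x j / 2 ^ r := by
        rw [Int.le_ediv_iff_mul_le hp]
        linarith [hm.2]
      linarith
  · unfold Hm
    rw [Fintype.mem_piFinset]
    intro i
    by_cases h : i = j
    · rw [if_pos h, h, hj]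
      simp
    · rw [if_neg h]
      exact hv i h

theorem main (hD1 : G_DY1) (k r : ℕ) (x y : Fin (k + 1) → ℤ) (j : Fin (k + 1))
    (hle : x j ≤ y j) (hmax : ∀ i, |x i - y i| ≤ |x j - y j|)
    (h1 : 2 * 2 ^ r ≤ |x j - y j|) (h2 : |x j - y j| ≤ 64 * 2 ^ r) :
    ∃ v ∈ Hz k r x, v ∈ Hz k r y ∧ ∃ τ τ' : ℤ, τ + τ' = |x j - y j| ∧ (∀ i, |x i - v i| ≤ τ) ∧
      ∀ i, |v i - y i| ≤ τ' := by
  obtain ⟨P, hP⟩ : ∃ P : ℤ, P = 2 ^ r := ⟨_, rfl⟩
  have hP0 : 0 < P := by rw [hP]; positivity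
  obtain ⟨D, hD⟩ : ∃ D : ℤ, D = |x j - y j| := ⟨_, rfl⟩
  rw [← hD] at h1 h2 hmax ⊢
  have hDj : D = y j - x j := by
    rw [hD, abs_sub_comm, abs_of_nonneg (by linarith)]
  rw [← hP] at h1 h2
  -- the multiple
  obtain ⟨m, hm1, hm2⟩ : ∃ m : ℤ, 4 * x j + D ≤ 4 * (m * P) ∧ 4 * (m * P) < 4 * x j + D + 4 * P := by
    refine ⟨-((-(4 * x j + D)) / (4 * P)), ?_, ?_⟩
    · have := Int.ediv_mul_le (-(4 * x j + D)) (show (4 * P) ≠ 0 by positivity)
      linarith
    · have := Int.lt_ediv_add_one_mul_self (-(4 * x j + D)) (show 0 < 4 * P by positivity)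
      linarith
  obtain ⟨τ, hτ⟩ : ∃ τ : ℤ, τ = m * P - x j := ⟨_, rfl⟩
  obtain ⟨τ', hτ'⟩ : ∃ τ' : ℤ, τ' = y j - m * P := ⟨_, rfl⟩
  have a1 : τ + τ' = D := by rw [hτ, hτ', hDj]; ring
  have a2 : D ≤ 4 * τ := by rw [hτ]; linarith
  have a3 : D ≤ 4 * τ' := by linarith
  have hex : ∀ i : Fin (k + 1), ∃ z : ℤ, z ∈ FF r (x i - τ) (x i + τ) ∧
      z ∈ FF r (y i - τ') (y i + τ') ∧ |x i - z| ≤ τ ∧ |z - y i| ≤ τ' := by
    intro i
    have hi := abs_le.mp (hmax i)
    obtain ⟨z, hz1, hz2, hz3, hz4, hz5, hz6⟩ := hD1 r (x i - τ) (x i + τ) (y i - τ') (y i + τ')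
      (by rw [← hP]; linarith) (by rw [← hP]; linarith) (by rw [← hP]; linarith)
      (by rw [← hP]; linarith) (by linarith [hi.1]) (by linarith [hi.2])
    refine ⟨z, hz1, hz2, ?_, ?_⟩
    · rw [abs_le]
      constructor <;> linarith
    · rw [abs_le]
      constructor <;> linarith
  choose z hz1 hz2 hz3 hz4 using hex
  have b1 : |m * 2 ^ r - x j| = τ := by
    rw [← hP, ← hτ]
    exact abs_of_nonneg (by linarith)
  have b2 : |m * 2 ^ r - y j| = τ' := by
    rw [← hP, abs_sub_comm, ← hτ']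
    exact abs_of_nonneg (by linarith)
  refine ⟨Function.update z j (m * 2 ^ r), ?_, ?_, τ, τ', a1, ?_, ?_⟩
  · apply mem_Hz j m (by simp)
    · rw [b1, ← hP]
      linarith
    · intro i hi
      rw [b1, Function.update_of_ne hi]
      exact hz1 i
  · apply mem_Hz j m (by simp)
    · rw [b2, ← hP]
      linarith
    · intro i hi
      rw [b2, Function.update_of_ne hi]
      exact hz2 i
  · intro i
    by_cases h : i = j
    · rw [h, Function.update_self, abs_sub_comm, b1]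
    · rw [Function.update_of_ne h]
      exact hz3 i
  · intro i
    by_cases h : i = j
    · rw [h, Function.update_self, b2]
    · rw [Function.update_of_ne h]
      exact hz4 i

theorem thm : G_DY1 → G_HUBZ := by
  intro hD1 k q hq
  obtain ⟨r, rfl⟩ : ∃ r, q = r + 2 := ⟨q - 2, by omega⟩
  refine ⟨Hz k r, ?_, ?_⟩
  · intro x
    have := card_Hz k r x
    have e : 2 * (r + 2) + 125 = 2 * r + 129 := by ring
    rw [e]
    exact this
  · intro x y j hmax h1 h2
    have e1 : (2 : ℤ) ^ (r + 2 - 1) = 2 * 2 ^ r := by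
      have : r + 2 - 1 = r + 1 := by omega
      rw [this, pow_succ]
      ring
    have e2 : (2 : ℤ) ^ (r + 2 + 4) = 64 * 2 ^ r := by
      rw [show r + 2 + 4 = r + 6 from rfl, pow_add]
      ring
    rw [e1] at h1
    rw [e2] at h2
    rcases le_total (x j) (y j) with h | h
    · exact main hD1 k r x y j h hmax h1 h2
    · obtain ⟨v, hv1, hv2, τ, τ', hs, g1, g2⟩ := main hD1 k r y x j h
        (fun i => by rw [abs_sub_comm (y i), abs_sub_comm (y j)]; exact hmax i)
        (by rw [abs_sub_comm (y j)]; exact h1) (by rw [abs_sub_comm (y j)]; exact h2)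
      refine ⟨v, hv2, hv1, τ', τ, ?_, ?_, ?_⟩
      · rw [abs_sub_comm (x j), ← hs]
        ring
      · intro i
        rw [abs_sub_comm]
        exact g2 i
      · intro i
        rw [abs_sub_comm]
        exact g1 i

end Pool.Agent.Helper98.SQ.HUBZ
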