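import Pool.Agent.Helper39.SQ.Goals

/-!
# Packet SQ-PIG for MP_9b2a83_an
-/

namespace Pool.Agent.Helper98.SQ.PIG

open Pool.Agent.Helper39.SQ

theorem bern (d D : ℕ) (hd : 2 ≤ d) (hD : 2 ≤ D) : d * (D - 1) + 1 < D ^ d := by
  obtain ⟨E, rfl⟩ : ∃ E, D = E + 2 := ⟨D - 2, by omega⟩
  induction d, hd using Nat.le_induction with
  | base =>
    have : E + 2 - 1 = E + 1 := by omega
    rw [this]
    nlinarith
  | succ n hn ih =>
    have h1 : E + 2 - 1 = E + 1 := by omega
    rw [h1] at ih ⊢
    rw [pow_succ]
    have h2 := Nat.mul_le_mul_right (E + 2) (Nat.succ_le_of_lt ih)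
    have h3 : n * (E + 1) * (E + 2) = n * (E + 1) * (E + 1) + n * (E + 1) := by ring
    have h4 : (n + 1) * (E + 1) = n * (E + 1) + (E + 1) := by ring
    have h5 : (n * (E + 1) + 1).succ * (E + 2) = n * (E + 1) * (E + 2) + 2 * (E + 2) := by
      simp only [Nat.succ_eq_add_one]
      ring
    rw [h4]
    omega

theorem thm : G_PIG := by
  intro d D hd hD
  classical
  have hmaps : ∀ σ ∈ (Finset.univ : Finset (Fin d → Fin D)),
      (∑ c, (σ c : ℕ)) ∈ Finset.range (d * (D - 1) + 1) := by
    intro σ _
    rw [Finset.mem_range]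
    have : ∑ c, (σ c : ℕ) ≤ ∑ _c : Fin d, (D - 1) := by
      apply Finset.sum_le_sum
      intro c _
      have := (σ c).2
      omega
    simp at this
    omega
  have hsum := Finset.card_eq_sum_card_fiberwise hmaps
  have hcard : (Finset.univ : Finset (Fin d → Fin D)).card = D ^ d := by simp
  rw [hcard] at hsum
  obtain ⟨N, hN, hmax⟩ := Finset.exists_max_image (Finset.range (d * (D - 1) + 1))
    (fun N => nshp d D N) ⟨0, by simp⟩
  have hle : D ^ d ≤ (d * (D - 1) + 1) * nshp d D N := by
    rw [hsum]
    calc _ ≤ ∑ _b ∈ Finset.range (d * (D - 1) + 1), nshp d D N := by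
            apply Finset.sum_le_sum
            intro b hb
            exact hmax b hb
      _ = _ := by simp
  have hb := bern d D hd hD
  have hN' := Finset.mem_range.mp hN
  have hDd : d * (D - 1) + d = d * D := by
    rw [← Nat.mul_succ]
    congr 1
    omega
  refine ⟨N, ?_, ?_, ?_⟩
  · rcases Nat.eq_zero_or_pos N with h | h
    · exfalso
      have h1 : nshp d D 0 ≤ 1 := by
        unfold nshp
        rw [Finset.card_le_one]
        intro a ha b hb
        simp at ha hb
        funext c
        apply Fin.ext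
        rw [ha c, hb c]
      rw [h] at hle
      nlinarith
    · exact h
  · rw [mul_comm D d]
    omega
  · refine hle.trans ?_
    gcongr
    omega

end Pool.Agent.Helper98.SQ.PIG
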